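import Mathlib

/-!
# MP_d9dcf6_co: the pseudofan conjecture fails in dimension three, also for minimal pseudofans

There are 15 primitive integer vectors in `ℝ³` and a minimal pseudofan of 52 cones which covers
space twice.
-/

set_option autoImplicit false

namespace Pool.Agent.Results.MP_d9dcf6_co.DoubleCover

/-! ### Definitions -/

section defs

variable {n m : ℕ}

/-- The `i`-th column of an integer matrix, as a real vector. -/
def col (V : Fin m → Fin n → ℤ) (i : Fin m) : Fin n → ℝ := fun k => (V i k : ℝ)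

/-- The cone spanned by the columns with index in `s`. -/
def cone (V : Fin m → Fin n → ℤ) (s : Finset (Fin m)) : Set (Fin n → ℝ) :=
  {x | ∃ c : Fin m → ℝ, (∀ i, 0 ≤ c i) ∧ x = ∑ i ∈ s, c i • col V i}

/-- `V` is an F-matrix. -/
structure IsFMatrix (V : Fin m → Fin n → ℤ) : Prop where
  rank : Submodule.span ℝ (Set.range (col V)) = ⊤
  ne_zero : ∀ i, V i ≠ 0
  not_parallel : ∀ i j, i ≠ j → ∀ c : ℝ, 0 < c → col V i ≠ c • col V j
  generate : cone V Finset.univ = Set.univ
  primitive : ∀ i, ∀ d : ℤ, (∀ k, d ∣ V i k) → IsUnit d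

/-- The cone of `s` belongs to `𝓜`: it is simplicial of dimension `n` and contains no column other
than its generators. -/
structure InM (V : Fin m → Fin n → ℤ) (s : Finset (Fin m)) : Prop where
  card : s.card = n
  indep : LinearIndepOn ℝ (col V) (s : Set (Fin m))
  empty : ∀ j, col V j ∈ cone V s → j ∈ s

/-- The cone of `t` lies in the closed half-space which is bounded by the span of the facet
`s \ {i}` of the cone of `s` and does not contain the cone of `s`. -/
def Opposite (V : Fin m → Fin n → ℤ) (s : Finset (Fin m)) (i : Fin m) (t : Finset (Fin m)) :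
    Prop :=
  ∃ l : (Fin n → ℝ) →ₗ[ℝ] ℝ, (∀ j ∈ s.erase i, l (col V j) = 0) ∧ 0 < l (col V i) ∧
    ∀ x ∈ cone V t, l x ≤ 0

/-- `C` (a collection of cones, given by the index sets of their generators) is a pseudofan of
`V`: every column generates a ray of a cone of `C`, and every facet `s \ {i}` of a cone of `C` is a
facet of exactly one other cone `t` of `C`, which lies on the opposite side. -/
structure IsPseudofan (V : Fin m → Fin n → ℤ) (C : Set (Finset (Fin m))) : Prop where
  inM : ∀ s ∈ C, InM V s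
  rays : ∀ i, ∃ s ∈ C, i ∈ s
  facets : ∀ s ∈ C, ∀ i ∈ s, ∃ t ∈ C, (t ≠ s ∧ s.erase i ⊆ t ∧ Opposite V s i t) ∧
    ∀ t' ∈ C, t' ≠ s → s.erase i ⊆ t' → t' = t

/-- No proper subcollection of the pseudofan `C` is a pseudofan. -/
def IsMinimal (V : Fin m → Fin n → ℤ) (C : Set (Finset (Fin m))) : Prop :=
  ∀ C' ⊆ C, IsPseudofan V C' → C' = C

/-- `C` is the set of maximal cones of a complete simplicial fan whose rays are generated by the
columns of `V`. -/
structure IsSimplicialFan (V : Fin m → Fin n → ℤ) (C : Set (Finset (Fin m))) : Prop where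
  simplicial : ∀ s ∈ C, s.card = n ∧ LinearIndepOn ℝ (col V) (s : Set (Fin m))
  inter : ∀ s ∈ C, ∀ t ∈ C, cone V s ∩ cone V t = cone V (s ∩ t)
  complete : ⋃ s ∈ C, cone V s = Set.univ
  rays : ∀ i, ∃ s ∈ C, i ∈ s

end defs

/-! ### The tables -/

/-- the columns -/
def v : Fin 15 → Fin 3 → ℤ :=
  ![![3, 7, -13], ![-14, 1, -6], ![-6, -7, 12],
    ![-6, -13, 2], ![-6, 4, 3], ![5, 14, -3],
    ![13, 5, -5], ![-5, 4, 14], ![11, -11, -2],
    ![-8, -6, -11], ![6, -11, 9], ![-8, 11, -7],
    ![-2, 14, 5], ![1, -13, -8], ![8, 7, 10]]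

/-- the cones, packed in base 15 -/
def KT : ℕ :=
  2727084845853229341716460304837811799913477084795856823201395639801899000099506210791320311554857672230279393051825806451349126803698830117558575607336562371425709977847714037611454430

/-- the `k`-th generator of the `c`-th cone -/
def K (c : Fin 52) (k : Fin 3) : Fin 15 :=
  ⟨KT / 15 ^ (3 * c.val + k.val) % 15, Nat.mod_lt _ (by norm_num)⟩

/-- the neighbours, packed in base 52 -/
def NT : ℕ :=
  4679815137390391864823148425215762120304217751123596840082949169634012366396122057568680835925524894630396126508806459432788045277632270340974989152072429658938378214227624912328196041801590478084533403214892845908222360179895538613710362907316391596453051859160912717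

/-- the neighbour of the `c`-th cone opposite to its `k`-th generator -/
def nb (c : Fin 52) (k : Fin 3) : Fin 52 :=
  ⟨NT / 52 ^ (3 * c.val + k.val) % 52, Nat.mod_lt _ (by norm_num)⟩

/-- directions to the root, packed in base 3 -/
def PT : ℕ := 1495853442301534140304005

/-- the direction from the `c`-th cone to the root -/
def par (c : Fin 52) : Fin 3 := ⟨PT / 3 ^ c.val % 3, Nat.mod_lt _ (by norm_num)⟩

/-- distances to the root, packed in base 64 -/
def RT : ℕ :=
  271022794706352695161278432316611371300061064403828326332887076044063987623274474766681268288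

/-- the distance of the `c`-th cone to the root -/
def rk (c : Fin 52) : ℕ := RT / 64 ^ c.val % 64

/-- a positive relation between the columns -/
def rel : Fin 15 → ℕ :=
  ![996, 595, 595, 595, 595, 595, 600, 595, 595, 595, 1177, 595, 595, 595, 595]
/-- integer dot product -/
def dot (a b : Fin 3 → ℤ) : ℤ := a 0 * b 0 + a 1 * b 1 + a 2 * b 2

/-- integer cross product -/
def crs (a b : Fin 3 → ℤ) : Fin 3 → ℤ :=
  ![a 1 * b 2 - a 2 * b 1, a 2 * b 0 - a 0 * b 2, a 0 * b 1 - a 1 * b 0]

/-- the inner normal vector of the facet opposite to the `k`-th generator -/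
def nf (c : Fin 52) (k : Fin 3) : Fin 3 → ℤ := crs (v (K c (k + 1))) (v (K c (k + 2)))

/-- the determinant of a cone -/
def dt (c : Fin 52) : ℤ := dot (nf c 0) (v (K c 0))

theorem t_pos : ∀ c, 0 < dt c := by decide +kernel

theorem t_dual : ∀ c j k, dot (nf c k) (v (K c j)) = if j = k then dt c else 0 := by
  decide +kernel

theorem t_recon : ∀ c a b, v (K c 0) a * nf c 0 b + v (K c 1) a * nf c 1 b +
    v (K c 2) a * nf c 2 b = if a = b then dt c else 0 := by decide +kernel

theorem t_ne : ∀ c, K c 0 ≠ K c 1 ∧ K c 0 ≠ K c 2 ∧ K c 1 ≠ K c 2 := by decide +kernel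

theorem t_empty : ∀ c i, i ≠ K c 0 → i ≠ K c 1 → i ≠ K c 2 → ∃ k, dot (nf c k) (v i) < 0 := by
  decide +kernel

theorem t_rays : ∀ i, ∃ c, i = K c 0 ∨ i = K c 1 ∨ i = K c 2 := by decide +kernel

/-- `i` is a generator of the `c`-th cone -/
def isGen (c : Fin 52) (i : Fin 15) : Prop := i = K c 0 ∨ i = K c 1 ∨ i = K c 2

instance (c : Fin 52) (i : Fin 15) : Decidable (isGen c i) := by
  unfold isGen
  infer_instance

theorem t_nb : ∀ c k, isGen (nb c k) (K c (k + 1)) ∧ isGen (nb c k) (K c (k + 2)) ∧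
    ¬ isGen (nb c k) (K c k) := by decide +kernel

theorem t_opp : ∀ c k j, dot (nf c k) (v (K (nb c k) j)) ≤ 0 := by decide +kernel

theorem t_uniq : ∀ c k c', isGen c' (K c (k + 1)) → isGen c' (K c (k + 2)) →
    c' = c ∨ c' = nb c k := by decide +kernel

theorem t_rk : ∀ c, c ≠ 0 → rk (nb c (par c)) < rk c := by decide +kernel

theorem t_back : ∀ c, c ≠ 0 → ∃ k, nb (nb c (par c)) k = c := by decide +kernel

theorem t_rel : (∀ i, 0 < rel i) ∧ ∀ a, ∑ i, (rel i : ℤ) * v i a = 0 := by decide +kernel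

theorem t_crs : ∀ i j, i ≠ j → crs (v i) (v j) ≠ 0 := by decide +kernel

theorem t_gcd : ∀ i, Int.gcd (Int.gcd (v i 0) (v i 1)) (v i 2) = 1 := by decide +kernel

/-- a vector in the interior of two cones -/
def pp : Fin 3 → ℤ := ![-1, 0, 0]

theorem t_two : ∀ k, 0 < dot (nf 9 k) pp ∧ 0 < dot (nf 12 k) pp := by decide +kernel

/-! ### The cones -/

/-- a linear functional with integer coefficients -/
def lin (a : Fin 3 → ℤ) : (Fin 3 → ℝ) →ₗ[ℝ] ℝ where
  toFun x := a 0 * x 0 + a 1 * x 1 + a 2 * x 2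
  map_add' x y := by
    simp only [Pi.add_apply]
    ring
  map_smul' r x := by
    simp only [Pi.smul_apply, smul_eq_mul, RingHom.id_apply]
    ring

theorem lin_apply (a : Fin 3 → ℤ) (x : Fin 3 → ℝ) : lin a x = a 0 * x 0 + a 1 * x 1 + a 2 * x 2 :=
  rfl

theorem lin_col (a : Fin 3 → ℤ) (i : Fin 15) : lin a (col v i) = (dot a (v i) : ℝ) := by
  simp [lin_apply, col, dot]

/-- the index set of the `c`-th cone -/
def S (c : Fin 52) : Finset (Fin 15) := {K c 0, K c 1, K c 2}

theorem mem_S (c : Fin 52) (i : Fin 15) : i ∈ S c ↔ isGen c i := by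
  simp [S, isGen]

theorem sum_S {M : Type*} [AddCommMonoid M] (c : Fin 52) (f : Fin 15 → M) :
    ∑ i ∈ S c, f i = f (K c 0) + f (K c 1) + f (K c 2) := by
  obtain ⟨h1, h2, h3⟩ := t_ne c
  rw [S, Finset.sum_insert, Finset.sum_insert, Finset.sum_singleton, add_assoc]
  · simpa using h3
  · simp only [Finset.mem_insert, Finset.mem_singleton, not_or]
    exact ⟨h1, h2⟩

theorem card_S (c : Fin 52) : (S c).card = 3 := by
  obtain ⟨h1, h2, h3⟩ := t_ne c
  rw [S, Finset.card_insert_of_notMem, Finset.card_insert_of_notMem, Finset.card_singleton]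
  · simpa using h3
  · simp only [Finset.mem_insert, Finset.mem_singleton, not_or]
    exact ⟨h1, h2⟩

theorem recon (c : Fin 52) (x : Fin 3 → ℝ) :
    (dt c : ℝ) • x = lin (nf c 0) x • col v (K c 0) + lin (nf c 1) x • col v (K c 1) +
      lin (nf c 2) x • col v (K c 2) := by
  funext a
  have h : ∀ b : Fin 3, ((v (K c 0) a : ℝ) * nf c 0 b + v (K c 1) a * nf c 1 b +
      v (K c 2) a * nf c 2 b) = if a = b then (dt c : ℝ) else 0 := by
    intro b
    have := congrArg (fun z : ℤ => (z : ℝ)) (t_recon c a b)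
    simp only [Int.cast_add, Int.cast_mul] at this
    rw [this]
    split_ifs <;> simp
  have h1 : (dt c : ℝ) * x a = ∑ b, (if a = b then (dt c : ℝ) else 0) * x b := by simp
  simp only [Pi.smul_apply, Pi.add_apply, smul_eq_mul]
  rw [h1]
  simp only [← h, Fin.sum_univ_three, lin_apply, col]
  ring

theorem lin_dual (c : Fin 52) (j k : Fin 3) :
    lin (nf c k) (col v (K c j)) = if j = k then (dt c : ℝ) else 0 := by
  rw [lin_col, t_dual]
  split_ifs <;> simp

theorem lin_sum (c : Fin 52) (k : Fin 3) (g : Fin 15 → ℝ) :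
    lin (nf c k) (∑ i ∈ S c, g i • col v i) = g (K c k) * dt c := by
  rw [sum_S]
  simp only [map_add, map_smul, smul_eq_mul, lin_dual]
  fin_cases k <;> simp

theorem dt_pos (c : Fin 52) : (0 : ℝ) < dt c := by exact_mod_cast t_pos c

theorem mem_cone (c : Fin 52) (x : Fin 3 → ℝ) :
    x ∈ cone v (S c) ↔ ∀ k, 0 ≤ lin (nf c k) x := by
  constructor
  · rintro ⟨g, hg, rfl⟩ k
    rw [lin_sum]
    exact mul_nonneg (hg _) (dt_pos c).le
  · intro h
    obtain ⟨h1, h2, h3⟩ := t_ne c
    refine ⟨fun i => if i = K c 0 then (dt c : ℝ)⁻¹ * lin (nf c 0) x else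
      if i = K c 1 then (dt c : ℝ)⁻¹ * lin (nf c 1) x else
      if i = K c 2 then (dt c : ℝ)⁻¹ * lin (nf c 2) x else 0, ?_, ?_⟩
    · intro i
      have hp := inv_nonneg.2 (dt_pos c).le
      simp only
      split_ifs
      · exact mul_nonneg hp (h 0)
      · exact mul_nonneg hp (h 1)
      · exact mul_nonneg hp (h 2)
      · exact le_rfl
    · rw [sum_S]
      simp only [if_true, if_neg h1.symm, if_neg h2.symm, if_neg h3.symm]
      have h4 := recon c x
      rw [← smul_smul, ← smul_smul, ← smul_smul, ← smul_add, ← smul_add, ← h4, smul_smul,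
        inv_mul_cancel₀ (dt_pos c).ne', one_smul]

theorem indep_S (c : Fin 52) : LinearIndepOn ℝ (col v) (S c : Set (Fin 15)) := by
  rw [linearIndepOn_finset_iff]
  intro g hg i hi
  have key : ∀ k, g (K c k) = 0 := by
    intro k
    have h := lin_sum c k g
    rw [hg, map_zero] at h
    rcases mul_eq_zero.1 h.symm with h | h
    · exact h
    · exact absurd h (dt_pos c).ne'
  rw [mem_S] at hi
  rcases hi with rfl | rfl | rfl
  · exact key 0
  · exact key 1
  · exact key 2

theorem inM_S (c : Fin 52) : InM v (S c) := by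
  refine ⟨card_S c, indep_S c, fun j hj => ?_⟩
  rw [mem_S]
  by_contra hcon
  simp only [isGen, not_or] at hcon
  obtain ⟨k, hk⟩ := t_empty c j hcon.1 hcon.2.1 hcon.2.2
  have h1 := (mem_cone c _).1 hj k
  rw [lin_col] at h1
  have h2 : 0 ≤ dot (nf c k) (v j) := by exact_mod_cast h1
  omega

theorem gen_mem (c : Fin 52) (k : Fin 3) : isGen c (K c k) := by
  fin_cases k
  · exact Or.inl rfl
  · exact Or.inr (Or.inl rfl)
  · exact Or.inr (Or.inr rfl)

theorem K_ne (c : Fin 52) (k : Fin 3) : K c (k + 1) ≠ K c k ∧ K c (k + 2) ≠ K c k := by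
  obtain ⟨h1, h2, h3⟩ := t_ne c
  fin_cases k
  · exact ⟨h1.symm, h2.symm⟩
  · exact ⟨h3.symm, h1⟩
  · exact ⟨h2, h3⟩

theorem gen_cases (c : Fin 52) (k : Fin 3) (i : Fin 15) (h : isGen c i) :
    i = K c k ∨ i = K c (k + 1) ∨ i = K c (k + 2) := by
  fin_cases k
  · exact h
  · rcases h with h | h | h
    · exact Or.inr (Or.inr h)
    · exact Or.inl h
    · exact Or.inr (Or.inl h)
  · rcases h with h | h | h
    · exact Or.inr (Or.inl h)
    · exact Or.inr (Or.inr h)
    · exact Or.inl h

theorem exists_k {c : Fin 52} {i : Fin 15} (h : i ∈ S c) : ∃ k, i = K c k := by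
  rw [mem_S] at h
  rcases h with h | h | h
  · exact ⟨0, h⟩
  · exact ⟨1, h⟩
  · exact ⟨2, h⟩

theorem facet_sub (c : Fin 52) (k : Fin 3) (c' : Fin 52) :
    (S c).erase (K c k) ⊆ S c' ↔ isGen c' (K c (k + 1)) ∧ isGen c' (K c (k + 2)) := by
  constructor
  · intro h
    refine ⟨?_, ?_⟩
    · rw [← mem_S]
      apply h
      rw [Finset.mem_erase, mem_S]
      exact ⟨(K_ne c k).1, gen_mem c _⟩
    · rw [← mem_S]
      apply h
      rw [Finset.mem_erase, mem_S]
      exact ⟨(K_ne c k).2, gen_mem c _⟩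
  · rintro ⟨h1, h2⟩ i hi
    rw [Finset.mem_erase, mem_S] at hi
    rw [mem_S]
    rcases gen_cases c k i hi.2 with h | h | h
    · exact absurd h hi.1
    · rw [h]
      exact h1
    · rw [h]
      exact h2

theorem nb_ne (c : Fin 52) (k : Fin 3) : S (nb c k) ≠ S c := by
  intro h
  apply (t_nb c k).2.2
  rw [← mem_S, h, mem_S]
  exact gen_mem c k

theorem opposite_nb (c : Fin 52) (k : Fin 3) : Opposite v (S c) (K c k) (S (nb c k)) := by
  refine ⟨lin (nf c k), ?_, ?_, ?_⟩
  · intro j hj
    rw [Finset.mem_erase] at hj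
    obtain ⟨l, rfl⟩ := exists_k hj.2
    rw [lin_dual, if_neg]
    rintro rfl
    exact hj.1 rfl
  · rw [lin_dual, if_pos rfl]
    exact dt_pos c
  · rintro x ⟨g, hg, rfl⟩
    rw [map_sum]
    apply Finset.sum_nonpos
    intro i hi
    obtain ⟨j, rfl⟩ := exists_k hi
    rw [map_smul, lin_col, smul_eq_mul]
    apply mul_nonpos_of_nonneg_of_nonpos (hg _)
    exact_mod_cast t_opp c k j

/-- the collection of the 52 cones -/
def C : Set (Finset (Fin 15)) := Set.range S

theorem pseudofan : IsPseudofan v C := by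
  refine ⟨?_, ?_, ?_⟩
  · rintro _ ⟨c, rfl⟩
    exact inM_S c
  · intro i
    obtain ⟨c, hc⟩ := t_rays i
    exact ⟨S c, ⟨c, rfl⟩, (mem_S c i).2 hc⟩
  · rintro _ ⟨c, rfl⟩ i hi
    obtain ⟨k, rfl⟩ := exists_k hi
    refine ⟨S (nb c k), ⟨nb c k, rfl⟩, ⟨nb_ne c k, ?_, opposite_nb c k⟩, ?_⟩
    · rw [facet_sub]
      exact ⟨(t_nb c k).1, (t_nb c k).2.1⟩
    · rintro _ ⟨c', rfl⟩ hne hsub
      rw [facet_sub] at hsub
      rcases t_uniq c k c' hsub.1 hsub.2 with h | h
      · exact absurd (congrArg S h) hne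
      · rw [h]

theorem minimal : IsMinimal v C := by
  intro C' hC' hps
  have hnb : ∀ c k, S c ∈ C' → S (nb c k) ∈ C' := by
    intro c k hc
    obtain ⟨t, ht, ⟨hne, hsub, -⟩, -⟩ := hps.facets (S c) hc (K c k) ((mem_S _ _).2 (gen_mem c k))
    obtain ⟨c', rfl⟩ := hC' ht
    rw [facet_sub] at hsub
    rcases t_uniq c k c' hsub.1 hsub.2 with h | h
    · exact absurd (congrArg S h) hne
    · rwa [h] at ht
  have hdown : ∀ n c, rk c ≤ n → S c ∈ C' → S 0 ∈ C' := by
    intro n
    induction n with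
    | zero =>
      intro c hc hm
      by_cases h0 : c = 0
      · rwa [h0] at hm
      · have := t_rk c h0
        omega
    | succ n ih =>
      intro c hc hm
      by_cases h0 : c = 0
      · rwa [h0] at hm
      · have := t_rk c h0
        exact ih (nb c (par c)) (by omega) (hnb c _ hm)
  have hup : ∀ n c, rk c ≤ n → S 0 ∈ C' → S c ∈ C' := by
    intro n
    induction n with
    | zero =>
      intro c hc hm
      by_cases h0 : c = 0
      · rwa [h0]
      · have := t_rk c h0
        omega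
    | succ n ih =>
      intro c hc hm
      by_cases h0 : c = 0
      · rwa [h0]
      · have h1 := t_rk c h0
        obtain ⟨k, hk⟩ := t_back c h0
        have h2 := hnb _ k (ih (nb c (par c)) (by omega) hm)
        rwa [hk] at h2
  obtain ⟨s, hs, -⟩ := hps.rays 0
  obtain ⟨c0, rfl⟩ := hC' hs
  have h0 := hdown _ c0 le_rfl hs
  apply Set.Subset.antisymm hC'
  rintro _ ⟨c, rfl⟩
  exact hup _ c le_rfl h0

/-! ### The matrix -/

theorem fmatrix : IsFMatrix v := by
  have hgen : cone v Finset.univ = Set.univ := by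
    rw [Set.eq_univ_iff_forall]
    intro x
    have hx : x = ((dt 0 : ℝ)⁻¹ * lin (nf 0 0) x) • col v (K 0 0) +
        ((dt 0 : ℝ)⁻¹ * lin (nf 0 1) x) • col v (K 0 1) +
        ((dt 0 : ℝ)⁻¹ * lin (nf 0 2) x) • col v (K 0 2) := by
      rw [← smul_smul, ← smul_smul, ← smul_smul, ← smul_add, ← smul_add, ← recon, smul_smul,
        inv_mul_cancel₀ (dt_pos 0).ne', one_smul]
    generalize (dt 0 : ℝ)⁻¹ * lin (nf 0 0) x = a0 at hx
    generalize (dt 0 : ℝ)⁻¹ * lin (nf 0 1) x = a1 at hx
    generalize (dt 0 : ℝ)⁻¹ * lin (nf 0 2) x = a2 at hx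
    refine ⟨fun i => (|a0| + |a1| + |a2|) * rel i + ((if i = K 0 0 then a0 else 0) +
      (if i = K 0 1 then a1 else 0) + (if i = K 0 2 then a2 else 0)), ?_, ?_⟩
    · intro i
      have h1 : (1 : ℝ) ≤ rel i := by exact_mod_cast t_rel.1 i
      have h2 : -|a0| ≤ if i = K 0 0 then a0 else 0 := by
        split_ifs
        · exact neg_abs_le a0
        · exact neg_nonpos.2 (abs_nonneg a0)
      have h3 : -|a1| ≤ if i = K 0 1 then a1 else 0 := by
        split_ifs
        · exact neg_abs_le a1
        · exact neg_nonpos.2 (abs_nonneg a1)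
      have h4 : -|a2| ≤ if i = K 0 2 then a2 else 0 := by
        split_ifs
        · exact neg_abs_le a2
        · exact neg_nonpos.2 (abs_nonneg a2)
      have h5 : 0 ≤ |a0| + |a1| + |a2| := by positivity
      simp only
      nlinarith
    · have h6 : ∑ i, (rel i : ℝ) • col v i = 0 := by
        funext a
        have := congrArg (fun z : ℤ => (z : ℝ)) (t_rel.2 a)
        simp only [Int.cast_sum, Int.cast_mul, Int.cast_natCast, Int.cast_zero] at this
        simpa [Finset.sum_apply, col] using this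
      rw [hx]
      generalize |a0| + |a1| + |a2| = L
      have h7 : ∀ i, (L * rel i + ((if i = K 0 0 then a0 else 0) + (if i = K 0 1 then a1 else 0) +
          (if i = K 0 2 then a2 else 0))) • col v i = L • (rel i : ℝ) • col v i +
          ((if i = K 0 0 then a0 • col v i else 0) + (if i = K 0 1 then a1 • col v i else 0) +
          (if i = K 0 2 then a2 • col v i else 0)) := by
        intro i
        simp only [add_smul, mul_smul, ite_smul, zero_smul]
      rw [Finset.sum_congr rfl fun i _ => h7 i]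
      simp only [Finset.sum_add_distrib, ← Finset.smul_sum, h6, smul_zero, zero_add,
        Finset.sum_ite_eq', Finset.mem_univ, if_true]
  refine ⟨?_, ?_, ?_, hgen, ?_⟩
  · rw [Submodule.eq_top_iff']
    intro x
    have h := recon 0 x
    have h5 : x = (dt 0 : ℝ)⁻¹ • ((dt 0 : ℝ) • x) := by
      rw [smul_smul, inv_mul_cancel₀ (dt_pos 0).ne', one_smul]
    rw [h5, h]
    apply Submodule.smul_mem
    refine Submodule.add_mem _ (Submodule.add_mem _ ?_ ?_) ?_ <;>
    exact Submodule.smul_mem _ _ (Submodule.subset_span ⟨_, rfl⟩)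
  · intro i hi
    have := t_gcd i
    rw [hi] at this
    simp at this
  · intro i j hij r hr h
    apply t_crs i j hij
    have h0 : (v i 0 : ℝ) = r * v j 0 := congrFun h 0
    have h1 : (v i 1 : ℝ) = r * v j 1 := congrFun h 1
    have h2 : (v i 2 : ℝ) = r * v j 2 := congrFun h 2
    funext a
    have e0 : (v i 1 * v j 2 - v i 2 * v j 1 : ℝ) = 0 := by rw [h1, h2]; ring
    have e1 : (v i 2 * v j 0 - v i 0 * v j 2 : ℝ) = 0 := by rw [h0, h2]; ring
    have e2 : (v i 0 * v j 1 - v i 1 * v j 0 : ℝ) = 0 := by rw [h0, h1]; ring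
    fin_cases a
    · exact_mod_cast e0
    · exact_mod_cast e1
    · exact_mod_cast e2
  · intro i d hd
    have h1 : d ∣ ((Int.gcd (Int.gcd (v i 0) (v i 1)) (v i 2) : ℕ) : ℤ) :=
      Int.dvd_coe_gcd (Int.dvd_coe_gcd (hd 0) (hd 1)) (hd 2)
    rw [t_gcd] at h1
    exact isUnit_of_dvd_one (by exact_mod_cast h1)

/-! ### The result -/

theorem mem_int {c : Fin 52} {x : Fin 3 → ℝ} (h : ∀ k, 0 < lin (nf c k) x) :
    x ∈ interior (cone v (S c)) := by
  rw [mem_interior]
  refine ⟨⋂ k, {y | 0 < lin (nf c k) y}, ?_, ?_, ?_⟩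
  · intro y hy
    rw [Set.mem_iInter] at hy
    rw [mem_cone]
    exact fun k => (hy k).le
  · apply isOpen_iInter_of_finite
    intro k
    exact isOpen_lt continuous_const (LinearMap.continuous_of_finiteDimensional _)
  · rw [Set.mem_iInter]
    exact h

/-- the vector in two cones -/
def px : Fin 3 → ℝ := fun k => (pp k : ℝ)

theorem lin_px (a : Fin 3 → ℤ) : lin a px = (dot a pp : ℝ) := by
  simp [lin_apply, px, dot]

theorem pos9 (k : Fin 3) : 0 < lin (nf 9 k) px := by
  rw [lin_px]
  exact_mod_cast (t_two k).1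

theorem pos12 (k : Fin 3) : 0 < lin (nf 12 k) px := by
  rw [lin_px]
  exact_mod_cast (t_two k).2

theorem t_diff : ∃ k, ¬ isGen 12 (K 9 k) := by decide +kernel

theorem ne_S : S 9 ≠ S 12 := by
  intro h
  obtain ⟨k, hk⟩ := t_diff
  apply hk
  rw [← mem_S, ← h, mem_S]
  exact gen_mem 9 k

/-- The pseudofan conjecture is false in dimension three, also for minimal pseudofans: some
F-matrix with `15` columns has a minimal pseudofan in which two different cones have intersecting
interiors; it is not the set of maximal cones of a simplicial fan. -/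
theorem result : ∃ (V : Fin 15 → Fin 3 → ℤ) (C : Set (Finset (Fin 15))),
    IsFMatrix V ∧ IsPseudofan V C ∧ IsMinimal V C ∧
    (∃ s ∈ C, ∃ t ∈ C, s ≠ t ∧ (interior (cone V s) ∩ interior (cone V t)).Nonempty) ∧
    ¬ IsSimplicialFan V C := by
  refine ⟨v, C, fmatrix, pseudofan, minimal, ⟨S 9, ⟨9, rfl⟩, S 12, ⟨12, rfl⟩, ne_S, px,
    mem_int pos9, mem_int pos12⟩, ?_⟩
  intro hfan
  have h := hfan.inter (S 9) ⟨9, rfl⟩ (S 12) ⟨12, rfl⟩
  have hp : px ∈ cone v (S 9) ∩ cone v (S 12) :=
    ⟨(mem_cone 9 px).2 fun k => (pos9 k).le, (mem_cone 12 px).2 fun k => (pos12 k).le⟩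
  rw [h] at hp
  obtain ⟨g, -, hg⟩ := hp
  obtain ⟨k, hk⟩ := t_diff
  have h1 := pos9 k
  have h2 : lin (nf 9 k) px = 0 := by
    rw [hg, map_sum]
    apply Finset.sum_eq_zero
    intro i hi
    rw [Finset.mem_inter] at hi
    obtain ⟨j, rfl⟩ := exists_k hi.1
    rw [map_smul, lin_dual, if_neg, smul_zero]
    rintro rfl
    exact hk ((mem_S _ _).1 hi.2)
  rw [h2] at h1
  exact lt_irrefl _ h1

end Pool.Agent.Results.MP_d9dcf6_co.DoubleCover
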